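import Pool.Agent.N59.CR.Two

/-!
# Directed extensions of self-similar groups along regular rays

Owner helper59. `H n` are groups of automorphisms of the `n`-th subtree with sections in `H (n + 1)`,
`D i n` groups directed along the rays `ρ i`.
-/

set_option autoImplicit false

open Classical

namespace Pool.Agent.N59.CR

open Pool.Agent.Y462.SS Pool.Agent.Y524S Pool.Agent.Y524L

variable {X : Type} {I : Type}

/-- `u` does not map the ray `ρ j` (from the letter `n` on) to `ρ i`, or `i = j` and `u` acts trivially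
near the ray; `k` is the level at which this becomes apparent -/
def Stop (ρ : I → ℕ → X) : ℕ → ℕ → I → I → T X → Prop
  | 0, n, i, j, u => root u (ρ j n) ≠ ρ i n ∨ (i = j ∧ u = 1)
  | k + 1, n, i, j, u => root u (ρ j n) = ρ i n ∧ Stop ρ k (n + 1) i j (sec u (ρ j n))

/-- the data: `H n` groups of automorphisms of the `n`-th subtree, `D i n` directed groups -/
structure DirDat (A : ℕ → Set X) (H : ℕ → Subgroup (T X)) (ρ : I → ℕ → X)
    (D : I → ℕ → Subgroup (T X)) : Prop where
  tmH : ∀ n, H n ≤ Tm (Vs A n)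
  tmD : ∀ i n, D i n ≤ Tm (Vs A n)
  secH : ∀ n, ∀ a ∈ H n, ∀ x, sec a x ∈ H (n + 1)
  rt : ∀ i n, ∀ b ∈ D i n, root b (ρ i n) = ρ i n
  secD : ∀ i n, ∀ b ∈ D i n, sec b (ρ i n) ∈ D i (n + 1)
  off : ∀ i n, ∀ b ∈ D i n, ∀ x, x ≠ ρ i n → sec b x ∈ H (n + 1)
  reg : ∀ i j n, ∀ u ∈ H n, ∃ k, Stop ρ k n i j u

variable {A : ℕ → Set X} {H : ℕ → Subgroup (T X)} {ρ : I → ℕ → X} {D : I → ℕ → Subgroup (T X)}

variable (H D) in
/-- the covers -/
abbrev Gd (n : ℕ) : Type := Monoid.Coprod (H n) (Monoid.CoprodI (fun i => D i n))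

/-- the base group in the cover -/
def iH {n : ℕ} : H n →* Gd H D n := Monoid.Coprod.inl

/-- the directed groups in the cover -/
def iD {n : ℕ} (i : I) : D i n →* Gd H D n :=
  Monoid.Coprod.inr.comp (Monoid.CoprodI.of (M := fun i => D i n) (i := i))

section

variable (h : DirDat A H ρ D)

include h

/-- the recursion on the base group -/
noncomputable def psH (n : ℕ) : H n →* Wr X (Gd H D (n + 1)) where
  toFun a := ⟨fun x => iH ⟨sec a.1 x, h.secH n a.1 a.2 x⟩, root a.1⟩
  map_one' := by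
    apply Wr.ext
    · funext x
      have h1 : (⟨sec (1 : H n).1 x, h.secH n (1 : H n).1 (1 : H n).2 x⟩ : H (n + 1)) = 1 :=
        Subtype.ext (sec_one x)
      exact (congrArg iH h1).trans (map_one _)
    · exact root_one
  map_mul' a b := by
    apply Wr.ext
    · funext x
      change iH _ = iH _ * iH _
      rw [← map_mul]
      congr 1
      exact Subtype.ext (sec_mul a.1 b.1 x)
    · exact root_mul a.1 b.1

/-- the sections of a directed automorphism in the cover -/
noncomputable def sDd (i : I) (n : ℕ) (b : D i n) (x : X) : Gd H D (n + 1) :=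
  if hx : x = ρ i n then iD i ⟨sec b.1 (ρ i n), h.secD i n b.1 b.2⟩
  else iH ⟨sec b.1 x, h.off i n b.1 b.2 x hx⟩

theorem sDd_on (i : I) (n : ℕ) (b : D i n) :
    sDd h i n b (ρ i n) = iD i ⟨sec b.1 (ρ i n), h.secD i n b.1 b.2⟩ := by
  rw [sDd, dif_pos rfl]

theorem sDd_off (i : I) (n : ℕ) (b : D i n) {x : X} (hx : x ≠ ρ i n) :
    sDd h i n b x = iH ⟨sec b.1 x, h.off i n b.1 b.2 x hx⟩ := by
  rw [sDd, dif_neg hx]

/-- the recursion on directed automorphisms -/
noncomputable def psDd (n : ℕ) (i : I) : D i n →* Wr X (Gd H D (n + 1)) where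
  toFun b := ⟨sDd h i n b, root b.1⟩
  map_one' := by
    apply Wr.ext
    · funext x
      change sDd h i n 1 x = 1
      by_cases hx : x = ρ i n
      · rw [hx, sDd_on]
        have h1 : (⟨sec (1 : D i n).1 (ρ i n), h.secD i n (1 : D i n).1 (1 : D i n).2⟩ :
            D i (n + 1)) = 1 := Subtype.ext (sec_one _)
        rw [h1, map_one]
      · rw [sDd_off h i n 1 hx]
        have h1 : (⟨sec (1 : D i n).1 x, h.off i n (1 : D i n).1 (1 : D i n).2 x hx⟩ :
            H (n + 1)) = 1 := Subtype.ext (sec_one x)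
        rw [h1, map_one]
    · exact root_one
  map_mul' a b := by
    apply Wr.ext
    · funext x
      change sDd h i n (a * b) x = sDd h i n a (root b.1 x) * sDd h i n b x
      by_cases hx : x = ρ i n
      · rw [hx, h.rt i n b.1 b.2, sDd_on, sDd_on, sDd_on, ← map_mul]
        congr 1
        apply Subtype.ext
        change sec (a.1 * b.1) (ρ i n) = _
        rw [sec_mul, h.rt i n b.1 b.2]
        rfl
      · have hx' : root b.1 x ≠ ρ i n := by
          intro h1
          apply hx
          apply (root b.1).injective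
          rw [h1, h.rt i n b.1 b.2]
        rw [sDd_off h i n _ hx, sDd_off h i n _ hx, sDd_off h i n _ hx', ← map_mul]
        congr 1
        exact Subtype.ext (sec_mul a.1 b.1 x)
    · exact root_mul a.1 b.1

/-- the recursion of the covers -/
noncomputable def psd (n : ℕ) : Gd H D n →* Wr X (Gd H D (n + 1)) :=
  Monoid.Coprod.lift (psH h n) (Monoid.CoprodI.lift (psDd h n))

theorem psd_iH (n : ℕ) (a : H n) : psd h n (iH a) = psH h n a :=
  Monoid.Coprod.lift_apply_inl _ _ _

theorem psd_iD (n : ℕ) (i : I) (b : D i n) : psd h n (iD i b) = psDd h n i b :=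
  (Monoid.Coprod.lift_apply_inr _ _ _).trans (Monoid.CoprodI.lift_of _ _)

theorem psd_iH_s (n : ℕ) (a : H n) (x : X) :
    (psd h n (iH a)).s x = iH ⟨sec a.1 x, h.secH n a.1 a.2 x⟩ := by
  rw [psd_iH]; rfl

theorem psd_iH_p (n : ℕ) (a : H n) : (psd h n (iH a)).p = root a.1 := by
  rw [psd_iH]; rfl

theorem psd_iD_p (n : ℕ) (i : I) (b : D i n) : (psd h n (iD i b)).p = root b.1 := by
  rw [psd_iD]; rfl

theorem psd_iD_on (n : ℕ) (i : I) (b : D i n) :
    (psd h n (iD i b)).s (ρ i n) = iD i ⟨sec b.1 (ρ i n), h.secD i n b.1 b.2⟩ := by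
  rw [psd_iD]; exact sDd_on h i n b

theorem psd_iD_off (n : ℕ) (i : I) (b : D i n) {x : X} (hx : x ≠ ρ i n) :
    (psd h n (iD i b)).s x = iH ⟨sec b.1 x, h.off i n b.1 b.2 x hx⟩ := by
  rw [psd_iD]; exact sDd_off h i n b hx

/-- the covers act through the groups of automorphisms -/
theorem act_cover (w : List X) : ∀ n, (∀ a : H n, actN (psd h) w n (iH a) = a.1.1 w) ∧
    ∀ i (b : D i n), actN (psd h) w n (iD i b) = b.1.1 w := by
  induction w with
  | nil =>
    intro n
    exact ⟨fun a => (nil_eq a.1).symm, fun i b => (nil_eq b.1).symm⟩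
  | cons x w ih =>
    intro n
    refine ⟨fun a => ?_, fun i b => ?_⟩
    · rw [actN_cons, psd_iH_p, psd_iH_s, cons_eq]
      exact congrArg _ ((ih (n + 1)).1 _)
    · rw [actN_cons, psd_iD_p, cons_eq]
      by_cases hx : x = ρ i n
      · rw [hx, psd_iD_on]
        exact congrArg _ ((ih (n + 1)).2 i _)
      · rw [psd_iD_off h n i b hx]
        exact congrArg _ ((ih (n + 1)).1 _)

theorem tau_iH (n : ℕ) (a : H n) : tauN (psd h) n (iH a) = a.1 :=
  Subtype.ext (Equiv.ext fun w => (act_cover h w n).1 a)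

theorem tau_iD (n : ℕ) (i : I) (b : D i n) : tauN (psd h) n (iD i b) = b.1 :=
  Subtype.ext (Equiv.ext fun w => (act_cover h w n).2 i b)

/-- the recursions do nothing outside the alphabets -/
theorem supp_psd : Supp A (psd h) := by
  intro n γ x hx
  have hx' : x ∉ Vs A n 0 := by rwa [Vs_apply]
  induction γ using Monoid.Coprod.induction_on with
  | inl a =>
    refine ⟨?_, ?_⟩
    · change (psd h n (iH a)).p x = x
      rw [psd_iH_p]
      exact root_Tm (h.tmH n a.2) hx'
    · change (psd h n (iH a)).s x = 1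
      rw [psd_iH_s]
      have h1 : (⟨sec a.1 x, h.secH n a.1 a.2 x⟩ : H (n + 1)) = 1 :=
        Subtype.ext (sec_Tm_one (h.tmH n a.2) hx')
      rw [h1, map_one]
  | inr c =>
    induction c using Monoid.CoprodI.induction_on with
    | one => rw [map_one, map_one]; exact ⟨rfl, rfl⟩
    | of i b =>
      refine ⟨?_, ?_⟩
      · change (psd h n (iD i b)).p x = x
        rw [psd_iD_p]
        exact root_Tm (h.tmD i n b.2) hx'
      · change (psd h n (iD i b)).s x = 1
        have h1 : sec b.1 x = 1 := sec_Tm_one (h.tmD i n b.2) hx'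
        by_cases h2 : x = ρ i n
        · rw [h2, psd_iD_on]
          have h3 : (⟨sec b.1 (ρ i n), h.secD i n b.1 b.2⟩ : D i (n + 1)) = 1 :=
            Subtype.ext (by change sec b.1 (ρ i n) = 1; rw [← h2]; exact h1)
          rw [h3, map_one]
        · rw [psd_iD_off h n i b h2]
          have h3 : (⟨sec b.1 x, h.off i n b.1 b.2 x h2⟩ : H (n + 1)) = 1 := Subtype.ext h1
          rw [h3, map_one]
    | mul c d hc hd =>
      rw [map_mul, map_mul, Wr.mul_p, Wr.mul_s, Equiv.Perm.mul_apply, hd.1, hd.2, hc.1, hc.2]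
      exact ⟨rfl, one_mul 1⟩
  | mul c d hc hd =>
    rw [map_mul, Wr.mul_p, Wr.mul_s, Equiv.Perm.mul_apply, hd.1, hd.2, hc.1, hc.2]
    exact ⟨rfl, one_mul 1⟩

/-- the elements which the recursion brings into the form `a b c`, `a`, `c` in the base group, `b` in
one directed group -/
inductive EnD : ∀ n, Gd H D n → Prop
  | baseH (n : ℕ) (a : H n) : EnD n (iH a)
  | base (n : ℕ) (a : H n) (i : I) (b : D i n) (c : H n) : EnD n (iH a * iD i b * iH c)
  | step (n : ℕ) (γ : Gd H D n) : (∀ x, EnD (n + 1) ((psd h n γ).s x)) → EnD n γ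

theorem EnD.left {n : ℕ} {γ : Gd H D n} (hγ : EnD h n γ) : ∀ a : H n, EnD h n (iH a * γ) := by
  induction hγ with
  | baseH n c => intro a; rw [← map_mul]; exact EnD.baseH n _
  | base n c i b d =>
    intro a
    rw [← mul_assoc, ← mul_assoc, ← map_mul]
    exact EnD.base n _ i b d
  | step n γ _ ih =>
    intro a
    refine EnD.step n _ fun x => ?_
    rw [map_mul, Wr.mul_s, psd_iH_s]
    exact ih x _

theorem EnD.right {n : ℕ} {γ : Gd H D n} (hγ : EnD h n γ) : ∀ a : H n, EnD h n (γ * iH a) := by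
  induction hγ with
  | baseH n c => intro a; rw [← map_mul]; exact EnD.baseH n _
  | base n c i b d =>
    intro a
    rw [mul_assoc, ← map_mul]
    exact EnD.base n _ i b _
  | step n γ _ ih =>
    intro a
    refine EnD.step n _ fun x => ?_
    rw [map_mul, Wr.mul_s, psd_iH_s]
    exact ih _ _

theorem EnD.dR {n : ℕ} (i : I) (b : D i n) (c : H n) : EnD h n (iD i b * iH c) := by
  have h1 := EnD.base (h := h) n 1 i b c
  rwa [map_one, one_mul] at h1

theorem EnD.dL {n : ℕ} (i : I) (b : D i n) (c : H n) : EnD h n (iH c * iD i b) := by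
  have h1 := EnD.base (h := h) n c i b 1
  rwa [map_one, mul_one] at h1

/-- the key case: two directed letters with an element of the base group between them -/
theorem key (k : ℕ) : ∀ (n : ℕ) (i j : I) (b : D i n) (u : H n) (b' : D j n),
    Stop ρ k n i j u.1 → EnD h n (iD i b * iH u * iD j b') := by
  induction k with
  | zero =>
    intro n i j b u b' hu
    rcases hu with hu | ⟨rfl, hu⟩
    · refine EnD.step n _ fun x => ?_
      rw [map_mul, map_mul, Wr.mul_s, Wr.mul_s, psd_iH_s, psd_iD_p, psd_iH_p]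
      by_cases hx : x = ρ j n
      · subst hx
        rw [h.rt j n b'.1 b'.2, psd_iD_on, psd_iD_off h n i b hu, ← map_mul]
        exact EnD.dL h j _ _
      · rw [psd_iD_off h n j b' hx]
        by_cases hy : root u.1 (root b'.1 x) = ρ i n
        · rw [hy, psd_iD_on, mul_assoc, ← map_mul]
          exact EnD.dR h i _ _
        · rw [psd_iD_off h n i b hy, ← map_mul, ← map_mul]
          exact EnD.baseH _ _
    · have h1 : u = 1 := Subtype.ext hu
      rw [h1, map_one, mul_one, ← map_mul]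
      have h2 := EnD.base (h := h) n 1 i (b * b') 1
      rwa [map_one, one_mul, mul_one] at h2
  | succ k ih =>
    intro n i j b u b' ⟨hu, hk⟩
    refine EnD.step n _ fun x => ?_
    rw [map_mul, map_mul, Wr.mul_s, Wr.mul_s, psd_iH_s, psd_iD_p, psd_iH_p]
    by_cases hx : x = ρ j n
    · subst hx
      rw [h.rt j n b'.1 b'.2, hu, psd_iD_on, psd_iD_on]
      exact ih (n + 1) i j _ _ _ hk
    · have hx' : root b'.1 x ≠ ρ j n := by
        intro h1
        apply hx
        apply (root b'.1).injective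
        rw [h1, h.rt j n b'.1 b'.2]
      have hy : root u.1 (root b'.1 x) ≠ ρ i n := by
        intro h1
        apply hx'
        apply (root u.1).injective
        rw [h1, hu]
      rw [psd_iD_off h n j b' hx, psd_iD_off h n i b hy, ← map_mul, ← map_mul]
      exact EnD.baseH _ _

theorem sec_base (n : ℕ) (a : H n) (i : I) (b : D i n) (c : H n) (x : X) :
    (∃ (a' : H (n + 1)) (b' : D i (n + 1)) (c' : H (n + 1)),
      (psd h n (iH a * iD i b * iH c)).s x = iH a' * iD i b' * iH c') ∨
      ∃ a' : H (n + 1), (psd h n (iH a * iD i b * iH c)).s x = iH a' := by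
  have h1 : (psd h n (iH a * iD i b * iH c)).s x =
      iH ⟨sec a.1 (root b.1 (root c.1 x)), h.secH n a.1 a.2 _⟩ *
        (psd h n (iD i b)).s (root c.1 x) * iH ⟨sec c.1 x, h.secH n c.1 c.2 _⟩ := by
    rw [map_mul, map_mul, Wr.mul_s, Wr.mul_s, psd_iH_s, psd_iH_s, psd_iD_p, psd_iH_p]
  rw [h1]
  by_cases hx : root c.1 x = ρ i n
  · left
    rw [hx, psd_iD_on]
    exact ⟨_, _, _, rfl⟩
  · right
    rw [psd_iD_off h n i b hx, ← map_mul, ← map_mul]
    exact ⟨_, rfl⟩

theorem EnD.sec {n : ℕ} {γ : Gd H D n} (hγ : EnD h n γ) (x : X) :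
    EnD h (n + 1) ((psd h n γ).s x) := by
  cases hγ with
  | baseH _ a => rw [psd_iH_s]; exact EnD.baseH _ _
  | base _ a i b c =>
    rcases sec_base h n a i b c x with ⟨a', b', c', h1⟩ | ⟨a', h1⟩
    · rw [h1]; exact EnD.base _ _ _ _ _
    · rw [h1]; exact EnD.baseH _ _
  | step _ _ h1 => exact h1 x

theorem EnD.mul_base {n : ℕ} {β : Gd H D n} (hβ : EnD h n β) :
    ∀ (a : H n) (i : I) (b : D i n) (c : H n), EnD h n (iH a * iD i b * iH c * β) := by
  induction hβ with
  | baseH n d => intro a i b c; exact (EnD.base n a i b c).right h d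
  | base n d j b' e =>
    intro a i b c
    obtain ⟨k, hk⟩ := h.reg i j n (c * d).1 (c * d).2
    have h1 := ((key h k n i j b (c * d) b' hk).left h a).right h e
    have h2 : iH a * iD i b * iH c * (iH d * iD j b' * iH e) =
        iH a * (iD i b * iH (c * d) * iD j b') * (iH e : Gd H D n) := by
      rw [map_mul]
      simp only [mul_assoc]
    rw [h2]
    exact h1
  | step n β hβ ih =>
    intro a i b c
    refine EnD.step n _ fun x => ?_
    rw [map_mul, Wr.mul_s]
    rcases sec_base h n a i b c ((psd h n β).p x) with ⟨a', b', c', h1⟩ | ⟨a', h1⟩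
    · rw [h1]; exact ih x _ _ _ _
    · rw [h1]; exact (hβ x).left h _

theorem EnD.mul {n : ℕ} {α : Gd H D n} (hα : EnD h n α) :
    ∀ β : Gd H D n, EnD h n β → EnD h n (α * β) := by
  induction hα with
  | baseH n a => intro β hβ; exact hβ.left h a
  | base n a i b c => intro β hβ; exact hβ.mul_base h a i b c
  | step n α _ ih =>
    intro β hβ
    refine EnD.step n _ fun x => ?_
    rw [map_mul, Wr.mul_s]
    exact ih _ _ (hβ.sec h x)

theorem EnD_all (n : ℕ) (γ : Gd H D n) : EnD h n γ := by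
  induction γ using Monoid.Coprod.induction_on with
  | inl a => exact EnD.baseH n a
  | inr c =>
    induction c using Monoid.CoprodI.induction_on with
    | one => rw [map_one, ← map_one (iH (H := H) (D := D) (n := n))]; exact EnD.baseH n 1
    | of i b =>
      have h1 := EnD.base (h := h) n 1 i b 1
      rw [map_one, one_mul, mul_one] at h1
      exact h1
    | mul c d hc hd => rw [map_mul]; exact hc.mul h _ hd
  | mul c d hc hd => exact hc.mul h _ hd

/-- elements of the base form which act trivially die -/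
theorem dies_base (k : ℕ) : ∀ (n : ℕ) (a : H n) (i : I) (b : D i n) (c : H n),
    a.1 * b.1 * c.1 = 1 → Stop ρ k n i i (a⁻¹ * c⁻¹).1 →
    DiesN (psd h) n (iH a * iD i b * iH c) := by
  have hu : ∀ (n : ℕ) (a : H n) (i : I) (b : D i n) (c : H n), a.1 * b.1 * c.1 = 1 →
      (a⁻¹ * c⁻¹).1 = b.1 := by
    intro n a i b c h1
    change a.1⁻¹ * c.1⁻¹ = b.1
    have h2 : a.1 * b.1 = c.1⁻¹ := mul_eq_one_iff_eq_inv.1 h1
    rw [← h2, inv_mul_cancel_left]
  have haH : ∀ (n : ℕ) (e : H n), e.1 = 1 → DiesN (psd h) n (iH e) := by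
    intro n e he
    have h1 : e = 1 := Subtype.ext he
    rw [h1, map_one]
    exact DiesN.one n
  induction k with
  | zero =>
    intro n a i b c h1 h2
    rw [hu n a i b c h1] at h2
    rcases h2 with h2 | ⟨-, h2⟩
    · exact absurd (h.rt i n b.1 b.2) h2
    · have h3 : b = 1 := Subtype.ext h2
      rw [h3, map_one, mul_one, ← map_mul]
      apply haH
      change a.1 * c.1 = 1
      rw [h2, mul_one] at h1
      exact h1
  | succ k ih =>
    intro n a i b c h1 h2
    have h3 : (psd h n (iH a * iD i b * iH c)).p = root (a.1 * b.1 * c.1) := by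
      rw [map_mul, map_mul, Wr.mul_p, Wr.mul_p, psd_iH_p, psd_iH_p, psd_iD_p, root_mul, root_mul]
    refine DiesN.step n _ (by rw [h3, h1, root_one]) fun x => ?_
    have h4 : (psd h n (iH a * iD i b * iH c)).s x =
        iH ⟨sec a.1 (root b.1 (root c.1 x)), h.secH n a.1 a.2 _⟩ *
          (psd h n (iD i b)).s (root c.1 x) * iH ⟨sec c.1 x, h.secH n c.1 c.2 _⟩ := by
      rw [map_mul, map_mul, Wr.mul_s, Wr.mul_s, psd_iH_s, psd_iH_s, psd_iD_p, psd_iH_p]
    have h5 : sec a.1 (root b.1 (root c.1 x)) * sec b.1 (root c.1 x) * sec c.1 x = 1 := by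
      have h6 : sec (a.1 * b.1 * c.1) x = 1 := by rw [h1, sec_one]
      rw [sec_mul, sec_mul] at h6
      exact h6
    rw [h4]
    by_cases hx : root c.1 x = ρ i n
    · rw [hx, psd_iD_on]
      rw [hx] at h5
      refine ih (n + 1) _ i _ _ h5 ?_
      have h7 := h2.2
      rw [hu n a i b c h1] at h7
      rw [hu (n + 1) ⟨sec a.1 (root b.1 (ρ i n)), h.secH n a.1 a.2 _⟩ i
        ⟨sec b.1 (ρ i n), h.secD i n b.1 b.2⟩ ⟨sec c.1 x, h.secH n c.1 c.2 _⟩ h5]
      exact h7
    · rw [psd_iD_off h n i b hx, ← map_mul, ← map_mul]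
      exact haH _ _ h5

theorem dies_dir {n : ℕ} {γ : Gd H D n} (hγ : EnD h n γ) :
    tauN (psd h) n γ = 1 → DiesN (psd h) n γ := by
  induction hγ with
  | baseH n a =>
    intro h1
    rw [tau_iH] at h1
    have h2 : a = 1 := Subtype.ext h1
    rw [h2, map_one]
    exact DiesN.one n
  | base n a i b c =>
    intro h1
    rw [map_mul, map_mul, tau_iH, tau_iH, tau_iD] at h1
    obtain ⟨k, hk⟩ := h.reg i i n (a⁻¹ * c⁻¹).1 (a⁻¹ * c⁻¹).2
    exact dies_base h k n a i b c h1 hk
  | step n γ _ ih =>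
    intro h1
    obtain ⟨h2, h3⟩ := step_of_tauN (psd h) h1
    exact DiesN.step n γ h2 fun x => ih x (h3 x)

theorem range_cover (n : ℕ) : (tauN (psd h) n).range = H n ⊔ ⨆ i, D i n := by
  apply le_antisymm
  · rintro _ ⟨γ, rfl⟩
    induction γ using Monoid.Coprod.induction_on with
    | inl a =>
      change tauN (psd h) n (iH a) ∈ _
      rw [tau_iH]
      exact Subgroup.mem_sup_left a.2
    | inr c =>
      induction c using Monoid.CoprodI.induction_on with
      | one => rw [map_one, map_one]; exact one_mem _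
      | of i b =>
        change tauN (psd h) n (iD i b) ∈ _
        rw [tau_iD]
        exact Subgroup.mem_sup_right (Subgroup.mem_iSup_of_mem i b.2)
      | mul c d hc hd => rw [map_mul, map_mul]; exact mul_mem hc hd
    | mul c d hc hd => rw [map_mul]; exact mul_mem hc hd
  · rw [sup_le_iff, iSup_le_iff]
    refine ⟨fun a ha => ⟨iH ⟨a, ha⟩, tau_iH h n ⟨a, ha⟩⟩, fun i b hb => ⟨iD i ⟨b, hb⟩, tau_iD h n i ⟨b, hb⟩⟩⟩

end

/-- **directed extensions** -/
theorem dir_closed {k : ℕ} {ρ : Fin k → ℕ → X} {D : Fin k → ℕ → Subgroup (T X)}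
    (h : DirDat A H ρ D) (C : ∀ (G : Type) [Group G], Prop) (hC : Closed C)
    (hA : ∀ n, (A n).Finite) (hH : ∀ n, C (H n)) (hD : ∀ i n, C (D i n))
    (K : Type) [Group K] (f : K →* Equiv.Perm (List X)) (hf : Function.Injective f)
    (S : Set K) (hS : Subgroup.closure S = ⊤)
    (hT : ∀ s ∈ S, IsTree (f s))
    (hTA : ∀ s ∈ S, ∀ (v : List X) (x : X) (w : List X), x ∉ A v.length →
      f s (v ++ x :: w) = f s v ++ x :: w)
    (hN : ∀ s ∈ S, ∃ n : ℕ, ∀ v : List X, v.length = n →
      ∃ g ∈ H n ⊔ ⨆ i, D i n, ∀ w, f s (v ++ w) = f s v ++ g.1 w) : C K := by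
  have hG : ∀ n, C (Gd H D n) := fun n =>
    hC.coprod _ _ (hH n) (coprodI_closed C hC k (fun i => D i n) fun i => hD i n)
  refine gen_closed (psd h) C hC hA (supp_psd h) hG
    (fun n γ h1 => dies_dir h (EnD_all h n γ) h1) K f hf S hS hT hTA fun s hs => ?_
  obtain ⟨n, h1⟩ := hN s hs
  refine ⟨n, fun v hv => ?_⟩
  obtain ⟨g, hg, h2⟩ := h1 v hv
  rw [← range_cover h n] at hg
  obtain ⟨γ, rfl⟩ := hg
  exact ⟨γ, fun w => by rw [h2, tauN_apply]⟩

end Pool.Agent.N59.CR
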