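import Pool.Agent.N59.CR.Seq

/-!
# Contracting sequences of wreath recursions: closure

Owner helper59.
-/

set_option autoImplicit false

namespace Pool.Agent.N59.CR

open Pool.Agent.Y462.SS Pool.Agent.Y524S Pool.Agent.Y524L

variable {X : Type} {G : ℕ → Type} [∀ n, Group (G n)]

/-- the recursions do nothing outside the alphabets `A n` -/
def Supp (A : ℕ → Set X) (ψ : ∀ n, G n →* Wr X (G (n + 1))) : Prop :=
  ∀ n γ x, x ∉ A n → (ψ n γ).p x = x ∧ (ψ n γ).s x = 1

variable (ψ : ∀ n, G n →* Wr X (G (n + 1)))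

theorem range_closed (C : ∀ (G : Type) [Group G], Prop) (hC : Closed C) {A : ℕ → Set X}
    (hA : ∀ n, (A n).Finite) (hψ : Supp A ψ) (hG : ∀ n, C (G n))
    (hd : ∀ n (γ : G n), tauN ψ n γ = 1 → DiesN ψ n γ) (n : ℕ) : C (tauN ψ n).range := by
  have h1 : C (G n ⧸ (tauN ψ n).ker) := by
    refine Pool.Agent.Y331.SPL.t_limn Pool.Agent.Y907.SP.t_wrs C hC X A hA G ψ hψ hG n _ ?_
    intro γ
    rw [MonoidHom.mem_ker]
    exact ⟨fun h2 => hd n γ h2, fun h2 => tauN_of_dies ψ h2⟩
  exact hC.of_injective _ _ (QuotientGroup.quotientKerEquivRange (tauN ψ n)).symm.toMonoidHom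
    (QuotientGroup.quotientKerEquivRange (tauN ψ n)).symm.injective h1

theorem range_le_Tm {A : ℕ → Set X} (hψ : Supp A ψ) (n : ℕ) :
    (tauN ψ n).range ≤ Tm (Vs A n) := by
  have key : ∀ (v : List X) (n : ℕ) (γ : G n) (x : X) (w : List X), x ∉ A (n + v.length) →
      actN ψ (v ++ x :: w) n γ = actN ψ v n γ ++ x :: w := by
    intro v
    induction v with
    | nil =>
      intro n γ x w hx
      obtain ⟨h1, h2⟩ := hψ n γ x hx
      rw [List.nil_append, actN_cons, h1, h2, actN_one, actN_nil, List.nil_append]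
    | cons y v ih =>
      intro n γ x w hx
      rw [List.cons_append, actN_cons, actN_cons, List.cons_append]
      congr 1
      apply ih
      rw [List.length_cons] at hx
      rwa [show n + 1 + v.length = n + (v.length + 1) from by omega]
  rintro _ ⟨γ, rfl⟩ v x w hx
  rw [Vs_apply] at hx
  exact key v n γ x w hx

theorem sec_mem_range {n : ℕ} {g : T X} (hg : g ∈ (tauN ψ n).range) (x : X) :
    sec g x ∈ (tauN ψ (n + 1)).range := by
  obtain ⟨γ, rfl⟩ := hg
  rw [sec_tauN]
  exact ⟨_, rfl⟩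

theorem LvN_range_le_succ {A : ℕ → Set X} (hψ : Supp A ψ) (N n : ℕ) :
    LvN A (fun n => (tauN ψ n).range) N n ≤ LvN A (fun n => (tauN ψ n).range) (N + 1) n := by
  induction N generalizing n with
  | zero => exact fun g hg => ⟨fun x hx => ⟨root_Tm (range_le_Tm ψ hψ n hg) hx,
      sec_Tm_one (range_le_Tm ψ hψ n hg) hx⟩, fun x => sec_mem_range ψ hg x⟩
  | succ N ih => exact fun g hg => ⟨hg.1, fun x => ih (n + 1) (hg.2 x)⟩

/-- **groups generated by automorphisms all of whose sections of some level are in the images** -/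
theorem gen_closed (C : ∀ (G : Type) [Group G], Prop) (hC : Closed C) {A : ℕ → Set X}
    (hA : ∀ n, (A n).Finite) (hψ : Supp A ψ) (hG : ∀ n, C (G n))
    (hd : ∀ n (γ : G n), tauN ψ n γ = 1 → DiesN ψ n γ)
    (H : Type) [Group H] (f : H →* Equiv.Perm (List X)) (hf : Function.Injective f)
    (S : Set H) (hS : Subgroup.closure S = ⊤)
    (hT : ∀ s ∈ S, IsTree (f s))
    (hTA : ∀ s ∈ S, ∀ (v : List X) (x : X) (w : List X), x ∉ A v.length →
      f s (v ++ x :: w) = f s v ++ x :: w)
    (hN : ∀ s ∈ S, ∃ n : ℕ, ∀ v : List X, v.length = n →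
      ∃ γ : G n, ∀ w, f s (v ++ w) = f s v ++ actN ψ w n γ) : C H := by
  have hTm : ∀ s ∈ S, ∀ (h : IsTree (f s)), (⟨f s, h⟩ : T X) ∈ Tm A := fun s hs _ => hTA s hs
  have hmem : ∀ g, f g ∈ T X := by
    have h1 : Subgroup.closure S ≤ (T X).comap f := by
      rw [Subgroup.closure_le]
      exact hT
    intro g
    have h2 : g ∈ Subgroup.closure S := by rw [hS]; exact Subgroup.mem_top g
    exact h1 h2
  let f' : H →* T X := f.codRestrict (T X) hmem
  have hf' : Function.Injective f' := fun a b h => hf (congrArg Subtype.val h)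
  let R : ℕ → Subgroup (T X) := fun n => (tauN ψ n).range
  have hR : ∀ n, C (R n) := range_closed ψ C hC hA hψ hG hd
  let K : ℕ → Subgroup H := fun N => (LvN A R N 0).comap f'
  have hK : Monotone K := by
    apply monotone_nat_of_le_succ
    intro N g hg
    exact LvN_range_le_succ ψ hψ N 0 hg
  have hKS : ∀ s ∈ S, ∃ N, s ∈ K N := by
    intro s hs
    obtain ⟨N, h1⟩ := hN s hs
    refine ⟨N, mem_LvN N 0 N _ (by omega) (hTm s hs (hT s hs)) fun v hv => ?_⟩
    have hW : ∀ w, f s (v ++ w) = f s v ++ (secW (⟨f s, hT s hs⟩ : T X) v).1 w :=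
      fun w => apply_append ⟨f s, hT s hs⟩ v w
    obtain ⟨γ, h2⟩ := h1 v hv
    refine ⟨γ, ?_⟩
    apply Subtype.ext
    apply Equiv.ext
    intro w
    have h4 := (hW w).symm.trans (h2 w)
    exact (List.append_cancel_left h4).symm
  let U : Subgroup H :=
    { carrier := {g | ∃ N, g ∈ K N}
      one_mem' := ⟨0, one_mem _⟩
      mul_mem' := by
        rintro a b ⟨m, hm⟩ ⟨n, hn⟩
        exact ⟨max m n, mul_mem (hK (le_max_left m n) hm) (hK (le_max_right m n) hn)⟩
      inv_mem' := by
        rintro a ⟨m, hm⟩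
        exact ⟨m, inv_mem hm⟩ }
  have hU : Subgroup.closure S ≤ U := by
    rw [Subgroup.closure_le]
    exact hKS
  have hall : ∀ g, ∃ N, g ∈ K N := by
    intro g
    have h2 : g ∈ Subgroup.closure S := by rw [hS]; exact Subgroup.mem_top g
    exact hU h2
  refine Pool.Agent.Y430.SS.t_union C hC H K hK hall ?_
  intro N
  have h1 : C (LvN A R N 0) := LvN_closed Pool.Agent.Y907.SP.t_wrs C hC hA R hR N 0
  let φ : K N →* LvN A R N 0 :=
    { toFun := fun g => ⟨f' g.1, g.2⟩
      map_one' := Subtype.ext (map_one f')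
      map_mul' := fun a b => Subtype.ext (map_mul f' a.1 b.1) }
  refine hC.of_injective _ _ φ ?_ h1
  intro a b hab
  exact Subtype.ext (hf' (congrArg Subtype.val hab))

end Pool.Agent.N59.CR
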