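import Pool.Agent.N59.CR.Dir

/-!
# Regular rays

Owner helper59.
-/

set_option autoImplicit false

namespace Pool.Agent.N59.CR

open Pool.Agent.Y462.SS Pool.Agent.Y524S Pool.Agent.Y524L

variable {X : Type} {I : Type}

/-- the word `r n, r (n + 1), …, r (n + l - 1)` -/
def pre (r : ℕ → X) (n : ℕ) : ℕ → List X
  | 0 => []
  | l + 1 => r n :: pre r (n + 1) l

theorem stop_of_ne {ρ : I → ℕ → X} {i j : I} (l : ℕ) : ∀ (n : ℕ) (u : T X),
    u.1 (pre (ρ j) n l) ≠ pre (ρ i) n l → ∃ k, Stop ρ k n i j u := by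
  induction l with
  | zero => intro n u h; exact absurd (nil_eq u) h
  | succ l ih =>
    intro n u h
    by_cases h1 : root u (ρ j n) = ρ i n
    · have h2 : (sec u (ρ j n)).1 (pre (ρ j) (n + 1) l) ≠ pre (ρ i) (n + 1) l := by
        intro h3
        apply h
        change u.1 (ρ j n :: pre (ρ j) (n + 1) l) = ρ i n :: pre (ρ i) (n + 1) l
        rw [cons_eq, h1, h3]
      obtain ⟨k, hk⟩ := ih (n + 1) _ h2
      exact ⟨k + 1, h1, hk⟩
    · exact ⟨0, Or.inl h1⟩

theorem stop_of_triv {ρ : I → ℕ → X} {i : I} (l : ℕ) : ∀ (n : ℕ) (u : T X),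
    (∀ w, u.1 (pre (ρ i) n l ++ w) = u.1 (pre (ρ i) n l) ++ w) → ∃ k, Stop ρ k n i i u := by
  induction l with
  | zero =>
    intro n u h
    refine ⟨0, Or.inr ⟨rfl, ?_⟩⟩
    apply Subtype.ext
    apply Equiv.ext
    intro w
    have h1 := h w
    change u.1 ([] ++ w) = u.1 [] ++ w at h1
    rw [nil_eq, List.nil_append] at h1
    exact h1
  | succ l ih =>
    intro n u h
    by_cases h1 : root u (ρ i n) = ρ i n
    · have h2 : ∀ w, (sec u (ρ i n)).1 (pre (ρ i) (n + 1) l ++ w) =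
          (sec u (ρ i n)).1 (pre (ρ i) (n + 1) l) ++ w := by
        intro w
        have h3 := h w
        change u.1 (ρ i n :: (pre (ρ i) (n + 1) l ++ w)) =
          u.1 (ρ i n :: pre (ρ i) (n + 1) l) ++ w at h3
        rw [cons_eq, cons_eq, List.cons_append] at h3
        exact (List.cons.inj h3).2
      obtain ⟨k, hk⟩ := ih (n + 1) _ h2
      exact ⟨k + 1, h1, hk⟩
    · exact ⟨0, Or.inl h1⟩

/-- regularity gives the stopping level -/
theorem stop_of_regular {ρ : I → ℕ → X} {i j : I} {n : ℕ} {u : T X}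
    (h : (∀ l, u.1 (pre (ρ j) n l) = pre (ρ i) n l) →
      i = j ∧ ∃ l, ∀ w, u.1 (pre (ρ j) n l ++ w) = u.1 (pre (ρ j) n l) ++ w) :
    ∃ k, Stop ρ k n i j u := by
  by_cases h1 : ∀ l, u.1 (pre (ρ j) n l) = pre (ρ i) n l
  · obtain ⟨rfl, l, hl⟩ := h h1
    exact stop_of_triv l n u hl
  · push Not at h1
    obtain ⟨l, hl⟩ := h1
    exact stop_of_ne l n u hl

end Pool.Agent.N59.CR
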