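import Pool.Agent.Y524S.Fin
import Pool.Agent.Y331.SP524.Limn
import Pool.Agent.Y907.SP.Wrs
import Pool.Agent.Y430.SS.Lf

/-!
# Contracting sequences of wreath recursions

Owner helper59. `G 0, G 1, ...` are groups with recursions `ψ n : G n → G (n + 1) ≀ Perm X`.
-/

set_option autoImplicit false

namespace Pool.Agent.N59.CR

open Pool.Agent.Y462.SS Pool.Agent.Y524S Pool.Agent.Y524L

variable {X : Type} {G : ℕ → Type} [∀ n, Group (G n)]

/-- the action of `G n` on words given by the recursions -/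
def actN (ψ : ∀ n, G n →* Wr X (G (n + 1))) : List X → ∀ n, G n → List X
  | [], _, _ => []
  | x :: w, n, γ => (ψ n γ).p x :: actN ψ w (n + 1) ((ψ n γ).s x)

/-- `δ` in `G m` is a section of `γ` in `G n` -/
inductive IsSection (ψ : ∀ n, G n →* Wr X (G (n + 1))) :
    ∀ (n : ℕ) (_ : G n) (m : ℕ) (_ : G m), Prop
  | refl (n : ℕ) (γ : G n) : IsSection ψ n γ n γ
  | step (n : ℕ) (γ : G n) (x : X) (m : ℕ) (δ : G m) :
      IsSection ψ (n + 1) ((ψ n γ).s x) m δ → IsSection ψ n γ m δ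

section basic

variable (ψ : ∀ n, G n →* Wr X (G (n + 1)))

theorem actN_nil (n : ℕ) (γ : G n) : actN ψ [] n γ = [] := rfl

theorem actN_cons (n : ℕ) (γ : G n) (x : X) (w : List X) :
    actN ψ (x :: w) n γ = (ψ n γ).p x :: actN ψ w (n + 1) ((ψ n γ).s x) := rfl

theorem actN_one (w : List X) : ∀ n, actN ψ w n 1 = w := by
  induction w with
  | nil => intro n; rfl
  | cons x w ih => intro n; rw [actN_cons, map_one, Wr.one_p, Wr.one_s, ih]; rfl

theorem actN_mul (w : List X) : ∀ n (γ δ : G n),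
    actN ψ w n (γ * δ) = actN ψ (actN ψ w n δ) n γ := by
  induction w with
  | nil => intro n γ δ; rfl
  | cons x w ih =>
    intro n γ δ
    rw [actN_cons, actN_cons, actN_cons, map_mul, Wr.mul_p, Wr.mul_s, ih]
    rfl

theorem actN_length (w : List X) : ∀ n (γ : G n), (actN ψ w n γ).length = w.length := by
  induction w with
  | nil => intro n γ; rfl
  | cons x w ih => intro n γ; rw [actN_cons, List.length_cons, List.length_cons, ih]

theorem actN_prefix (v w : List X) : ∀ n (γ : G n), actN ψ v n γ <+: actN ψ (v ++ w) n γ := by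
  induction v with
  | nil => intro n γ; rw [actN_nil]; exact List.nil_prefix
  | cons x v ih =>
    intro n γ
    rw [List.cons_append, actN_cons, actN_cons, List.cons_prefix_cons]
    exact ⟨rfl, ih _ _⟩

/-- the permutation of the words given by `γ` -/
def actPermN (n : ℕ) (γ : G n) : Equiv.Perm (List X) where
  toFun w := actN ψ w n γ
  invFun w := actN ψ w n γ⁻¹
  left_inv w := by
    change actN ψ (actN ψ w n γ) n γ⁻¹ = w
    rw [← actN_mul, inv_mul_cancel, actN_one]
  right_inv w := by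
    change actN ψ (actN ψ w n γ⁻¹) n γ = w
    rw [← actN_mul, mul_inv_cancel, actN_one]

/-- the homomorphism to the automorphism group of the tree -/
def tauN (n : ℕ) : G n →* T X where
  toFun γ := ⟨actPermN ψ n γ, fun w => actN_length ψ w n γ, fun v w => actN_prefix ψ v w n γ⟩
  map_one' := by
    apply Subtype.ext
    apply Equiv.ext
    intro w
    exact actN_one ψ w n
  map_mul' γ δ := by
    apply Subtype.ext
    apply Equiv.ext
    intro w
    exact actN_mul ψ w n γ δ

theorem tauN_apply (n : ℕ) (γ : G n) (w : List X) : (tauN ψ n γ).1 w = actN ψ w n γ := rfl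

theorem tauN_eq_one (n : ℕ) (γ : G n) : tauN ψ n γ = 1 ↔ ∀ w, actN ψ w n γ = w := by
  constructor
  · intro h w
    rw [← tauN_apply, h]
    rfl
  · intro h
    apply Subtype.ext
    apply Equiv.ext
    intro w
    exact h w

theorem root_tauN (n : ℕ) (γ : G n) : root (tauN ψ n γ) = (ψ n γ).p := by
  apply Equiv.ext
  intro x
  have h1 := cons_eq (tauN ψ n γ) x []
  have h2 : (tauN ψ n γ).1 [x] = (ψ n γ).p x :: actN ψ [] (n + 1) ((ψ n γ).s x) := rfl
  rw [h2] at h1
  exact (List.cons.inj h1).1.symm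

theorem sec_tauN (n : ℕ) (γ : G n) (x : X) :
    sec (tauN ψ n γ) x = tauN ψ (n + 1) ((ψ n γ).s x) := by
  apply Subtype.ext
  apply Equiv.ext
  intro w
  have h1 := cons_eq (tauN ψ n γ) x w
  have h2 : (tauN ψ n γ).1 (x :: w) = (ψ n γ).p x :: actN ψ w (n + 1) ((ψ n γ).s x) := rfl
  rw [h2] at h1
  exact (List.cons.inj h1).2.symm

theorem step_of_tauN {n : ℕ} {γ : G n} (h : tauN ψ n γ = 1) :
    (ψ n γ).p = 1 ∧ ∀ x, tauN ψ (n + 1) ((ψ n γ).s x) = 1 := by
  refine ⟨?_, fun x => ?_⟩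
  · rw [← root_tauN, h, root_one]
  · rw [← sec_tauN, h, sec_one]

theorem tauN_of_dies {n : ℕ} {γ : G n} (h : DiesN ψ n γ) : tauN ψ n γ = 1 := by
  induction h with
  | one => exact map_one _
  | step n γ hp _ ih =>
    apply T_ext
    · rw [root_tauN, hp, root_one]
    · intro x
      rw [sec_tauN, ih x, sec_one]

theorem sec_pow {n : ℕ} {γ : G n} (h : (ψ n γ).p = 1) (l : ℕ) (x : X) :
    (ψ n (γ ^ l)).s x = ((ψ n γ).s x) ^ l := by
  induction l with
  | zero => rw [pow_zero, pow_zero, map_one, Wr.one_s]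
  | succ l ih => rw [pow_succ, pow_succ, map_mul, Wr.mul_s, h, Equiv.Perm.one_apply, ih]

theorem IsSection.snoc {ψ : ∀ n, G n →* Wr X (G (n + 1))} {n m : ℕ} {γ : G n} {δ : G m}
    (h : IsSection ψ n γ m δ) (x : X) : IsSection ψ n γ (m + 1) ((ψ m δ).s x) := by
  induction h with
  | refl n γ => exact IsSection.step n γ x _ _ (IsSection.refl _ _)
  | step n γ y m δ _ ih => exact IsSection.step n γ y _ _ ih

/-- along some path an element which acts trivially and does not die has sections of the same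
kind -/
theorem path {n : ℕ} {γ : G n} (h1 : tauN ψ n γ = 1) (h2 : ¬ DiesN ψ n γ) (k : ℕ) :
    ∃ δ : G (n + k), tauN ψ (n + k) δ = 1 ∧ ¬ DiesN ψ (n + k) δ ∧
      ∀ l, IsSection ψ n (γ ^ l) (n + k) (δ ^ l) := by
  induction k with
  | zero => exact ⟨γ, h1, h2, fun l => IsSection.refl _ _⟩
  | succ k ih =>
    obtain ⟨δ, h3, h4, h5⟩ := ih
    obtain ⟨hp, hs⟩ := step_of_tauN ψ h3
    have h6 : ∃ x, ¬ DiesN ψ (n + k + 1) ((ψ (n + k) δ).s x) := by
      by_contra hcon
      push Not at hcon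
      exact h4 (DiesN.step _ _ hp hcon)
    obtain ⟨x, hx⟩ := h6
    refine ⟨(ψ (n + k) δ).s x, hs x, hx, fun l => ?_⟩
    have h7 := (h5 l).snoc x
    rw [sec_pow ψ hp l x] at h7
    exact h7

/-- the main lemma: in a contracting sequence the elements which act trivially die -/
theorem dies_of_tauN (N : ∀ m, Set (G m))
    (hcon : ∀ n (γ : G n), ∃ m₀, ∀ m, m₀ ≤ m → ∀ δ : G m, IsSection ψ n γ m δ → δ ∈ N m)
    (B : ℕ) (hB : ∀ m, ∃ m', m ≤ m' ∧ {δ | δ ∈ N m' ∧ tauN ψ m' δ = 1}.encard ≤ B)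
    (htor : ∀ m, ∀ δ ∈ N m, IsOfFinOrder δ → tauN ψ m δ = 1 → δ = 1)
    {n : ℕ} {γ : G n} (h : tauN ψ n γ = 1) : DiesN ψ n γ := by
  by_contra hd
  choose m₀ hm₀ using fun l : ℕ => hcon n (γ ^ l)
  obtain ⟨M, hM⟩ : ∃ M, ∀ l ∈ Finset.range (B + 2), m₀ l ≤ M :=
    ⟨(Finset.range (B + 2)).sup m₀, fun l hl => Finset.le_sup (f := m₀) hl⟩
  obtain ⟨m', h1, h2⟩ := hB (max M n)
  obtain ⟨k, rfl⟩ : ∃ k, m' = n + k := ⟨m' - n, by have := le_max_right M n; omega⟩
  obtain ⟨δ, h3, h4, h5⟩ := path ψ h hd k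
  have h6 : ∀ l ∈ Finset.range (B + 2), δ ^ l ∈ N (n + k) := fun l hl =>
    hm₀ l _ (le_trans (hM l hl) (le_trans (le_max_left M n) h1)) _ (h5 l)
  have h7 : IsOfFinOrder δ := by
    by_contra hinf
    have hinj : Function.Injective fun l : ℕ => δ ^ l :=
      injective_pow_iff_not_isOfFinOrder.2 hinf
    have h8 : (fun l : ℕ => δ ^ l) '' (Finset.range (B + 1) : Set ℕ) ⊆
        {δ | δ ∈ N (n + k) ∧ tauN ψ (n + k) δ = 1} := by
      rintro y ⟨l, hl, rfl⟩
      have hl' : l < B + 1 := by simpa using hl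
      refine ⟨h6 l (Finset.mem_range.2 (by omega)), ?_⟩
      change tauN ψ (n + k) (δ ^ l) = 1
      rw [map_pow, h3, one_pow]
    have h9 := Set.encard_le_encard h8
    rw [hinj.encard_image, Set.encard_coe_eq_coe_finsetCard, Finset.card_range] at h9
    have h10 := h9.trans h2
    have h11 : B + 1 ≤ B := by exact_mod_cast h10
    omega
  have h8 : δ ∈ N (n + k) := by
    have := h6 1 (Finset.mem_range.2 (by omega))
    rwa [pow_one] at this
  have h9 := htor _ δ h8 h7 h3
  rw [h9] at h4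
  exact h4 (DiesN.one _)

end basic

end Pool.Agent.N59.CR
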