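import Pool.Agent.N59.CR.Fin

/-!
# Contracting wreath recursions: one group, and the group of the nucleus

Owner helper59.
-/

set_option autoImplicit false

namespace Pool.Agent.N59.CR

open Pool.Agent.Y462.SS Pool.Agent.Y524S Pool.Agent.Y524L

variable {X : Type}

/-! ## one group -/

section stat

variable {Γ : Type} [Group Γ] (ψ : Γ →* Wr X Γ)

/-- the section of `γ` at the word `v` -/
def sectionAt : List X → Γ → Γ
  | [], γ => γ
  | x :: v, γ => sectionAt v ((ψ γ).s x)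

theorem sectionAt_nil (γ : Γ) : sectionAt ψ [] γ = γ := rfl
theorem sectionAt_cons (x : X) (v : List X) (γ : Γ) :
    sectionAt ψ (x :: v) γ = sectionAt ψ v ((ψ γ).s x) := rfl

theorem sectionAt_append (u v : List X) (γ : Γ) :
    sectionAt ψ (u ++ v) γ = sectionAt ψ v (sectionAt ψ u γ) := by
  induction u generalizing γ with
  | nil => rfl
  | cons x u ih => exact ih _

/-- the constant sequence of groups -/
abbrev CG (Γ : Type) (_ : ℕ) : Type := Γ

/-- the constant sequence of recursions -/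
abbrev cst : ∀ n : ℕ, CG Γ n →* Wr X (CG Γ (n + 1)) := fun _ => ψ

theorem actN_cst (w : List X) : ∀ (n : ℕ) (γ : Γ), actN (G := CG Γ) (cst ψ) w n γ = act ψ γ w := by
  induction w with
  | nil => intro n γ; rw [act_nil]; rfl
  | cons x w ih => intro n γ; rw [act_cons]; exact congrArg _ (ih (n + 1) _)

theorem exists_word {n m : ℕ} {γ : CG Γ n} {δ : CG Γ m}
    (h : IsSection (G := CG Γ) (cst ψ) n γ m δ) :
    ∃ v : List X, n + v.length = m ∧ sectionAt ψ v γ = δ := by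
  induction h with
  | refl n γ => exact ⟨[], rfl, rfl⟩
  | step n γ x m δ _ ih =>
    obtain ⟨v, h1, h2⟩ := ih
    exact ⟨x :: v, by rw [List.length_cons]; omega, h2⟩

theorem tauN_cst (n : ℕ) (γ : Γ) :
    tauN (G := CG Γ) (cst ψ) n γ = 1 ↔ ∀ w, act ψ γ w = w := by
  rw [tauN_eq_one]
  constructor
  · intro h w
    rw [← actN_cst ψ w n γ]
    exact h w
  · intro h w
    rw [actN_cst]
    exact h w

/-- **one group** -/
theorem stat_closed [Finite X] (C : ∀ (G : Type) [Group G], Prop) (hC : Closed C) (hΓ : C Γ)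
    (N : Set Γ) (hN : {δ | δ ∈ N ∧ ∀ w, act ψ δ w = w}.Finite)
    (hcon : ∀ γ, ∃ n : ℕ, ∀ v : List X, n ≤ v.length → sectionAt ψ v γ ∈ N)
    (htor : ∀ δ ∈ N, IsOfFinOrder δ → (∀ w, act ψ δ w = w) → δ = 1)
    (H : Type) [Group H] (f : H →* Equiv.Perm (List X)) (hf : Function.Injective f)
    (S : Set H) (hS : Subgroup.closure S = ⊤) (hT : ∀ s ∈ S, IsTree (f s))
    (hNS : ∀ s ∈ S, ∃ n : ℕ, ∀ v : List X, v.length = n →
      ∃ γ : Γ, ∀ w, f s (v ++ w) = f s v ++ act ψ γ w) : C H := by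
  have hd : ∀ (n : ℕ) (γ : Γ), tauN (G := CG Γ) (cst ψ) n γ = 1 →
      DiesN (G := CG Γ) (cst ψ) n γ := by
    intro n γ
    refine dies_of_tauN (G := CG Γ) (cst ψ) (fun _ => N) ?_
      ({δ | δ ∈ N ∧ ∀ w, act ψ δ w = w}.ncard) ?_ ?_
    · intro n γ
      obtain ⟨n₀, h1⟩ := hcon γ
      refine ⟨n + n₀, fun m hm δ hδ => ?_⟩
      obtain ⟨v, h2, h3⟩ := exists_word ψ hδ
      rw [← h3]
      exact h1 v (by omega)
    · intro m
      refine ⟨m, le_rfl, ?_⟩
      have h1 : {δ : Γ | δ ∈ N ∧ tauN (G := CG Γ) (cst ψ) m δ = 1} =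
          {δ | δ ∈ N ∧ ∀ w, act ψ δ w = w} := by
        ext δ
        exact and_congr_right fun _ => tauN_cst ψ m δ
      rw [h1, ← hN.cast_ncard_eq]
    · intro m δ h1 h2 h3
      exact htor δ h1 h2 ((tauN_cst ψ m δ).1 h3)
  refine gen_closed (G := CG Γ) (cst ψ) C hC (A := fun _ => Set.univ)
    (fun _ => Set.toFinite _) (fun n γ x hx => absurd (Set.mem_univ x) hx) (fun _ => hΓ) hd
    H f hf S hS hT (fun s _ v x w hx => absurd (Set.mem_univ x) hx) ?_
  intro s hs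
  obtain ⟨n, h1⟩ := hNS s hs
  refine ⟨n, fun v hv => ?_⟩
  obtain ⟨γ, h2⟩ := h1 v hv
  refine ⟨γ, fun w => ?_⟩
  rw [h2 w, actN_cst]

end stat

/-! ## the group of the nucleus -/

/-- the relations `a b = c` between three elements of `N` -/
def nucRels {M : Type} [Mul M] (N : Set M) : Set (FreeGroup N) :=
  {r | ∃ a b c : N, (a : M) * b = c ∧
    r = FreeGroup.of a * FreeGroup.of b * (FreeGroup.of c)⁻¹}

/-- the group generated by the elements of `N` with the relations `a b = c` for all `a, b, c` in `N`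
for which this holds -/
abbrev NucGroup {M : Type} [Mul M] (N : Set M) : Type := PresentedGroup (nucRels N)

/-- the nucleus conditions for a set of tree automorphisms -/
structure Nuc (N : Set (T X)) : Prop where
  one : (1 : T X) ∈ N
  inv : ∀ a ∈ N, a⁻¹ ∈ N
  sec : ∀ a ∈ N, ∀ b ∈ N, ∀ x, sec (a * b) x ∈ N

section nuc

variable {N : Set (T X)}

theorem Nuc.sec_mem (h : Nuc N) {a : T X} (ha : a ∈ N) (x : X) : Pool.Agent.Y462.SS.sec a x ∈ N := by
  have h1 := h.sec a ha 1 h.one x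
  rwa [mul_one] at h1

/-- the generators -/
def gen (a : N) : NucGroup N := PresentedGroup.of a

theorem gen_mul (a b c : N) (h : (a : T X) * b = c) : gen a * gen b = gen c := by
  have h1 : (PresentedGroup.mk (nucRels N)
      (FreeGroup.of a * FreeGroup.of b * (FreeGroup.of c)⁻¹)) = 1 :=
    PresentedGroup.one_of_mem ⟨a, b, c, h, rfl⟩
  rw [map_mul, map_mul, map_inv, mul_inv_eq_one] at h1
  exact h1

theorem gen_one (h : Nuc N) : gen (⟨1, h.one⟩ : N) = 1 := by
  have h1 := gen_mul (⟨1, h.one⟩ : N) ⟨1, h.one⟩ ⟨1, h.one⟩ (one_mul _)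
  exact mul_eq_left.1 h1

theorem gen_inv (h : Nuc N) (a : N) : (gen a)⁻¹ = gen ⟨(a : T X)⁻¹, h.inv a a.2⟩ := by
  have h1 := gen_mul a ⟨(a : T X)⁻¹, h.inv a a.2⟩ ⟨1, h.one⟩ (mul_inv_cancel _)
  rw [gen_one h] at h1
  exact (eq_inv_of_mul_eq_one_right h1).symm

/-- the recursion on the generators -/
def nucFun (h : Nuc N) (a : N) : Wr X (NucGroup N) :=
  ⟨fun x => gen ⟨sec a.1 x, h.sec_mem a.2 x⟩, root a.1⟩

theorem nucFun_mul (h : Nuc N) (a b c : N) (habc : (a : T X) * b = c) :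
    nucFun h a * nucFun h b = nucFun h c := by
  apply Wr.ext
  · funext x
    refine gen_mul _ _ _ ?_
    change sec a.1 (root b.1 x) * sec b.1 x = sec c.1 x
    rw [← sec_mul, habc]
  · change root a.1 * root b.1 = root c.1
    rw [← root_mul, habc]

/-- the recursion of the group of the nucleus -/
noncomputable def nucRec (h : Nuc N) : NucGroup N →* Wr X (NucGroup N) :=
  PresentedGroup.toGroup (f := nucFun h) (by
    rintro r ⟨a, b, c, habc, rfl⟩
    rw [map_mul, map_mul, map_inv, FreeGroup.lift_apply_of, FreeGroup.lift_apply_of,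
      FreeGroup.lift_apply_of, nucFun_mul h a b c habc, mul_inv_cancel])

theorem nucRec_gen (h : Nuc N) (a : N) : nucRec h (gen a) = nucFun h a :=
  PresentedGroup.toGroup.of _

theorem act_gen (h : Nuc N) (w : List X) : ∀ a : N, act (nucRec h) (gen a) w = a.1.1 w := by
  induction w with
  | nil => intro a; rw [act_nil, nil_eq]
  | cons x w ih =>
    intro a
    rw [act_cons, nucRec_gen, cons_eq]
    exact congrArg _ (ih ⟨sec a.1 x, h.sec_mem a.2 x⟩)

/-- products of `2 ^ k` generators -/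
def Q (N : Set (T X)) : ℕ → Set (NucGroup N)
  | 0 => Set.range gen
  | k + 1 => {γ | ∃ α ∈ Q N k, ∃ β ∈ Q N k, γ = α * β}

theorem one_mem_Q (h : Nuc N) (k : ℕ) : (1 : NucGroup N) ∈ Q N k := by
  induction k with
  | zero => exact ⟨⟨1, h.one⟩, gen_one h⟩
  | succ k ih => exact ⟨1, ih, 1, ih, (mul_one 1).symm⟩

theorem Q_mono (h : Nuc N) : Monotone (Q N) :=
  monotone_nat_of_le_succ fun k γ hγ => ⟨γ, hγ, 1, one_mem_Q h k, (mul_one γ).symm⟩

theorem inv_mem_Q (h : Nuc N) (k : ℕ) : ∀ γ ∈ Q N k, γ⁻¹ ∈ Q N k := by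
  induction k with
  | zero =>
    rintro _ ⟨a, rfl⟩
    exact ⟨_, (gen_inv h a).symm⟩
  | succ k ih =>
    rintro _ ⟨α, hα, β, hβ, rfl⟩
    exact ⟨β⁻¹, ih β hβ, α⁻¹, ih α hα, mul_inv_rev α β⟩

theorem Q_all (h : Nuc N) (γ : NucGroup N) : ∃ k, γ ∈ Q N k := by
  let U : Subgroup (NucGroup N) :=
    { carrier := {γ | ∃ k, γ ∈ Q N k}
      one_mem' := ⟨0, one_mem_Q h 0⟩
      mul_mem' := by
        rintro a b ⟨m, hm⟩ ⟨n, hn⟩
        exact ⟨max m n + 1, a, Q_mono h (le_max_left m n) hm, b,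
          Q_mono h (le_max_right m n) hn, rfl⟩
      inv_mem' := by
        rintro a ⟨m, hm⟩
        exact ⟨m, inv_mem_Q h m a hm⟩ }
  have h1 : Subgroup.closure (Set.range (PresentedGroup.of : N → NucGroup N)) ≤ U := by
    rw [Subgroup.closure_le]
    rintro _ ⟨a, rfl⟩
    exact ⟨0, a, rfl⟩
  rw [PresentedGroup.closure_range_of] at h1
  exact h1 (Subgroup.mem_top γ)

theorem sec_Q_zero (h : Nuc N) {γ : NucGroup N} (hγ : γ ∈ Q N 0) (x : X) :
    (nucRec h γ).s x ∈ Q N 0 := by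
  obtain ⟨a, rfl⟩ := hγ
  rw [nucRec_gen]
  exact ⟨_, rfl⟩

theorem sec_Q (h : Nuc N) (k : ℕ) : ∀ γ ∈ Q N (k + 1), ∀ x, (nucRec h γ).s x ∈ Q N k := by
  induction k with
  | zero =>
    rintro _ ⟨_, ⟨a, rfl⟩, _, ⟨b, rfl⟩, rfl⟩ x
    rw [map_mul, nucRec_gen, nucRec_gen]
    refine ⟨⟨sec (a.1 * b.1) x, h.sec a.1 a.2 b.1 b.2 x⟩, ?_⟩
    symm
    refine gen_mul _ _ _ ?_
    exact (sec_mul a.1 b.1 x).symm
  | succ k ih =>
    rintro _ ⟨α, hα, β, hβ, rfl⟩ x
    rw [map_mul, Wr.mul_s]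
    exact ⟨_, ih α hα _, _, ih β hβ x, rfl⟩

theorem sectionAt_Q (h : Nuc N) (v : List X) : ∀ (k : ℕ), k ≤ v.length → ∀ γ ∈ Q N k,
    sectionAt (nucRec h) v γ ∈ Q N 0 := by
  induction v with
  | nil =>
    intro k hk γ hγ
    have : k = 0 := by rw [List.length_nil] at hk; omega
    subst this
    exact hγ
  | cons x v ih =>
    intro k hk γ hγ
    rw [sectionAt_cons]
    cases k with
    | zero => exact ih 0 (Nat.zero_le _) _ (sec_Q_zero h hγ x)
    | succ k =>
      exact ih k (by rw [List.length_cons] at hk; omega) _ (sec_Q h k γ hγ x)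

theorem act_closure (h : Nuc N) {g : T X} (hg : g ∈ Subgroup.closure N) :
    ∃ γ : NucGroup N, ∀ w, act (nucRec h) γ w = g.1 w := by
  induction hg using Subgroup.closure_induction with
  | mem a ha => exact ⟨gen ⟨a, ha⟩, fun w => act_gen h w ⟨a, ha⟩⟩
  | one => exact ⟨1, fun w => act_one _ w⟩
  | mul a b _ _ iha ihb =>
    obtain ⟨α, hα⟩ := iha
    obtain ⟨β, hβ⟩ := ihb
    refine ⟨α * β, fun w => ?_⟩
    rw [act_mul, hβ, hα]
    rfl
  | inv a _ iha =>
    obtain ⟨α, hα⟩ := iha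
    refine ⟨α⁻¹, fun w => ?_⟩
    change _ = a.1⁻¹ w
    have h1 : a.1 (act (nucRec h) α⁻¹ w) = w := by
      rw [← hα, ← act_mul, mul_inv_cancel, act_one]
    rw [Equiv.Perm.eq_inv_iff_eq]
    exact h1

/-- **the group of the nucleus** -/
theorem nuc_closed [Finite X] (C : ∀ (G : Type) [Group G], Prop) (hC : Closed C)
    (h : Nuc N) (hCN : C (NucGroup N))
    (H : Type) [Group H] (f : H →* Equiv.Perm (List X)) (hf : Function.Injective f)
    (S : Set H) (hS : Subgroup.closure S = ⊤) (hT : ∀ s ∈ S, IsTree (f s))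
    (hNS : ∀ s ∈ S, ∃ n : ℕ, ∀ v : List X, v.length = n →
      ∃ g ∈ Subgroup.closure N, ∀ w, f s (v ++ w) = f s v ++ g.1 w) : C H := by
  have htriv : ∀ δ ∈ Q N 0, (∀ w, act (nucRec h) δ w = w) → δ = 1 := by
    rintro _ ⟨a, rfl⟩ h1
    have h2 : a = ⟨1, h.one⟩ := by
      apply Subtype.ext
      apply Subtype.ext
      apply Equiv.ext
      intro w
      rw [← act_gen h w a]
      exact h1 w
    rw [h2, gen_one h]
  refine stat_closed (nucRec h) C hC hCN (Q N 0) ?_ ?_ ?_ H f hf S hS hT ?_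
  · refine (Set.finite_singleton (1 : NucGroup N)).subset ?_
    rintro δ ⟨h1, h2⟩
    exact htriv δ h1 h2
  · intro γ
    obtain ⟨k, hk⟩ := Q_all h γ
    exact ⟨k, fun v hv => sectionAt_Q h v k hv γ hk⟩
  · intro δ h1 _ h2
    exact htriv δ h1 h2
  · intro s hs
    obtain ⟨n, h1⟩ := hNS s hs
    refine ⟨n, fun v hv => ?_⟩
    obtain ⟨g, hg, h2⟩ := h1 v hv
    obtain ⟨γ, h3⟩ := act_closure h hg
    exact ⟨γ, fun w => by rw [h2, h3]⟩

end nuc

end Pool.Agent.N59.CR
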