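import Pool.Agent.N59.CR.Stat

/-!
# Contraction of products of two elements, and free products

Owner helper59.
-/

set_option autoImplicit false

namespace Pool.Agent.N59.CR

open Pool.Agent.Y462.SS Pool.Agent.Y524S Pool.Agent.Y524L

variable {X : Type}

/-! ## contraction from products of two elements -/

section two

variable {Γ : Type} [Group Γ] (ψ : Γ →* Wr X Γ) (N : Set Γ)

/-- products of `2 ^ k` elements of `N` -/
def P2 : ℕ → Set Γ
  | 0 => N
  | k + 1 => {γ | ∃ α ∈ P2 k, ∃ β ∈ P2 k, γ = α * β}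

variable {N}

theorem one_mem_P2 (h1 : (1 : Γ) ∈ N) (k : ℕ) : (1 : Γ) ∈ P2 N k := by
  induction k with
  | zero => exact h1
  | succ k ih => exact ⟨1, ih, 1, ih, (mul_one 1).symm⟩

theorem P2_mono (h1 : (1 : Γ) ∈ N) : Monotone (P2 N) :=
  monotone_nat_of_le_succ fun k γ hγ => ⟨γ, hγ, 1, one_mem_P2 h1 k, (mul_one γ).symm⟩

theorem inv_mem_P2 (hi : ∀ a ∈ N, a⁻¹ ∈ N) (k : ℕ) : ∀ γ ∈ P2 N k, γ⁻¹ ∈ P2 N k := by
  induction k with
  | zero => exact hi
  | succ k ih =>
    rintro _ ⟨α, hα, β, hβ, rfl⟩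
    exact ⟨β⁻¹, ih β hβ, α⁻¹, ih α hα, mul_inv_rev α β⟩

theorem P2_all (h1 : (1 : Γ) ∈ N) (hi : ∀ a ∈ N, a⁻¹ ∈ N) (hg : Subgroup.closure N = ⊤)
    (γ : Γ) : ∃ k, γ ∈ P2 N k := by
  let U : Subgroup Γ :=
    { carrier := {γ | ∃ k, γ ∈ P2 N k}
      one_mem' := ⟨0, one_mem_P2 h1 0⟩
      mul_mem' := by
        rintro a b ⟨m, hm⟩ ⟨n, hn⟩
        exact ⟨max m n + 1, a, P2_mono h1 (le_max_left m n) hm, b,
          P2_mono h1 (le_max_right m n) hn, rfl⟩
      inv_mem' := by
        rintro a ⟨m, hm⟩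
        exact ⟨m, inv_mem_P2 hi m a hm⟩ }
  have h2 : Subgroup.closure N ≤ U := by
    rw [Subgroup.closure_le]
    exact fun a ha => ⟨0, ha⟩
  rw [hg] at h2
  exact h2 (Subgroup.mem_top γ)

variable {ψ} in
theorem sec_P2 (hs : ∀ a ∈ N, ∀ b ∈ N, ∀ x, (ψ (a * b)).s x ∈ N) (k : ℕ) :
    ∀ γ ∈ P2 N (k + 1), ∀ x, (ψ γ).s x ∈ P2 N k := by
  induction k with
  | zero =>
    rintro _ ⟨a, ha, b, hb, rfl⟩ x
    exact hs a ha b hb x
  | succ k ih =>
    rintro _ ⟨α, hα, β, hβ, rfl⟩ x
    rw [map_mul, Wr.mul_s]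
    exact ⟨_, ih α hα _, _, ih β hβ x, rfl⟩

variable {ψ} in
/-- sections of products of two elements of `N` at letters in `N`: contraction -/
theorem contract (h1 : (1 : Γ) ∈ N) (hi : ∀ a ∈ N, a⁻¹ ∈ N) (hg : Subgroup.closure N = ⊤)
    (hs : ∀ a ∈ N, ∀ b ∈ N, ∀ x, (ψ (a * b)).s x ∈ N) (γ : Γ) :
    ∃ n : ℕ, ∀ v : List X, n ≤ v.length → sectionAt ψ v γ ∈ N := by
  obtain ⟨k, hk⟩ := P2_all h1 hi hg γ
  refine ⟨k, fun v hv => ?_⟩
  clear hg
  induction v generalizing k γ with
  | nil =>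
    have : k = 0 := by rw [List.length_nil] at hv; omega
    subst this
    exact hk
  | cons x v ih =>
    rw [sectionAt_cons]
    cases k with
    | zero =>
      refine ih _ 0 ?_ (Nat.zero_le _)
      have h2 := hs γ hk 1 h1 x
      rwa [mul_one] at h2
    | succ k =>
      exact ih _ k (sec_P2 hs k γ hk x) (by rw [List.length_cons] at hv; omega)

end two

/-! ## free products -/

section free

/-- finite free products -/
theorem coprodI_closed (C : ∀ (G : Type) [Group G], Prop) (hC : Closed C) :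
    ∀ (n : ℕ) (A : Fin n → Type) [∀ i, Group (A i)], (∀ i, C (A i)) → C (Monoid.CoprodI A) := by
  intro n
  induction n with
  | zero =>
    intro A _ _
    refine hC.of_injective _ (Multiplicative ℤ) 1 ?_ hC.int
    intro a b _
    have h1 : (MonoidHom.id (Monoid.CoprodI A)) = 1 :=
      Monoid.CoprodI.ext_hom _ _ fun i => i.elim0
    have h2 : ∀ c : Monoid.CoprodI A, c = 1 := fun c => DFunLike.congr_fun h1 c
    rw [h2 a, h2 b]
  | succ n ih =>
    intro A _ hA
    let B : Fin n → Type := fun i => A i.castSucc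
    let _ : ∀ i, Group (B i) := fun i => inferInstanceAs (Group (A i.castSucc))
    let D := Monoid.Coprod (Monoid.CoprodI B) (A (Fin.last n))
    have hD : C D := hC.coprod _ _ (ih B fun i => hA _) (hA _)
    let f : Monoid.CoprodI A →* D := Monoid.CoprodI.lift
      (Fin.lastCases (motive := fun i => A i →* D) Monoid.Coprod.inr
        fun i => Monoid.Coprod.inl.comp (Monoid.CoprodI.of (M := B) (i := i)))
    let g : D →* Monoid.CoprodI A := Monoid.Coprod.lift
      (Monoid.CoprodI.lift fun i => Monoid.CoprodI.of (M := A) (i := i.castSucc))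
      (Monoid.CoprodI.of (M := A) (i := Fin.last n))
    have hgf : g.comp f = MonoidHom.id _ := by
      apply Monoid.CoprodI.ext_hom
      intro i
      induction i using Fin.lastCases with
      | last =>
        ext a
        simp only [MonoidHom.comp_apply, f, Monoid.CoprodI.lift_of, Fin.lastCases_last,
          MonoidHom.id_apply]
        exact Monoid.Coprod.lift_apply_inr _ _ _
      | cast i =>
        ext a
        simp only [MonoidHom.comp_apply, f, Monoid.CoprodI.lift_of, Fin.lastCases_castSucc,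
          MonoidHom.id_apply]
        exact (Monoid.Coprod.lift_apply_inl _ _ _).trans (Monoid.CoprodI.lift_of (M := B)
          (fun i => Monoid.CoprodI.of (M := A) (i := i.castSucc)) (i := i) a)
    refine hC.of_injective _ D f ?_ hD
    intro a b hab
    have h1 := congrArg g hab
    have h2 : ∀ c, g (f c) = c := fun c => DFunLike.congr_fun hgf c
    rwa [h2, h2] at h1

variable {n : ℕ} {A : Fin n → Subgroup (T X)}

/-- The groups `A i` of tree automorphisms intersect trivially, and for two elements `a`, `b` of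
their union and every letter `x` the sections of `a` at `b(x)` and of `b` at `x` are in one of the
groups. -/
structure FreeNuc (A : Fin n → Subgroup (T X)) : Prop where
  disj : ∀ i j, i ≠ j → ∀ a, a ∈ A i → a ∈ A j → a = 1
  sec : ∀ i j, ∀ a ∈ A i, ∀ b ∈ A j, ∀ x, ∃ k, sec a (root b x) ∈ A k ∧ sec b x ∈ A k

/-- the element of the free product -/
noncomputable def emb (A : Fin n → Subgroup (T X)) (a : T X) :
    Monoid.CoprodI (fun i => A i) := by
  classical
  exact if h : ∃ i, a ∈ A i then Monoid.CoprodI.of (i := h.choose) ⟨a, h.choose_spec⟩ else 1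

theorem emb_eq (h : FreeNuc A) {i : Fin n} {a : T X} (ha : a ∈ A i) :
    emb A a = Monoid.CoprodI.of (M := fun i => A i) (i := i) ⟨a, ha⟩ := by
  have h1 : ∃ i, a ∈ A i := ⟨i, ha⟩
  rw [emb, dif_pos h1]
  by_cases h2 : h1.choose = i
  · subst h2
    rfl
  · have h3 := h.disj _ _ h2 a h1.choose_spec ha
    have h4 : (⟨a, h1.choose_spec⟩ : A h1.choose) = 1 := Subtype.ext h3
    have h5 : (⟨a, ha⟩ : A i) = 1 := Subtype.ext h3
    rw [h4, h5, map_one, map_one]

/-- the recursion on one factor -/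
noncomputable def facRec (h : FreeNuc A) (i : Fin n) :
    A i →* Wr X (Monoid.CoprodI (fun i => A i)) where
  toFun a := ⟨fun x => emb A (sec a.1 x), root a.1⟩
  map_one' := by
    apply Wr.ext
    · funext x
      change emb A (sec (1 : T X) x) = 1
      rw [sec_one, emb_eq h (one_mem (A i))]
      exact map_one _
    · exact root_one
  map_mul' a b := by
    apply Wr.ext
    · funext x
      change emb A (sec (a.1 * b.1) x) = emb A (sec a.1 (root b.1 x)) * emb A (sec b.1 x)
      obtain ⟨k, h1, h2⟩ := h.sec i i a.1 a.2 b.1 b.2 x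
      rw [emb_eq h h1, emb_eq h h2, sec_mul, emb_eq h (mul_mem h1 h2), ← map_mul]
      rfl
    · exact root_mul a.1 b.1

/-- the recursion of the free product -/
noncomputable def freeRec (h : FreeNuc A) :
    Monoid.CoprodI (fun i => A i) →* Wr X (Monoid.CoprodI (fun i => A i)) :=
  Monoid.CoprodI.lift (facRec h)

theorem freeRec_of (h : FreeNuc A) {i : Fin n} (a : A i) :
    freeRec h (Monoid.CoprodI.of (M := fun i => A i) a) =
      ⟨fun x => emb A (sec a.1 x), root a.1⟩ := by
  rw [freeRec, Monoid.CoprodI.lift_of]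
  rfl

theorem act_freeRec (h : FreeNuc A) (w : List X) : ∀ (i : Fin n) (a : A i),
    act (freeRec h) (Monoid.CoprodI.of (M := fun i => A i) a) w = a.1.1 w := by
  induction w with
  | nil => intro i a; rw [act_nil, nil_eq]
  | cons x w ih =>
    intro i a
    obtain ⟨k, -, h2⟩ := h.sec i i a.1 a.2 a.1 a.2 x
    rw [act_cons, freeRec_of, cons_eq]
    change root a.1 x :: act (freeRec h) (emb A (sec a.1 x)) w = _
    rw [emb_eq h h2]
    exact congrArg _ (ih k ⟨sec a.1 x, h2⟩)

/-- the elements of the factors -/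
def facs (A : Fin n → Subgroup (T X)) : Set (Monoid.CoprodI (fun i => A i)) :=
  {γ | γ = 1 ∨ ∃ (i : Fin n) (a : A i), γ = Monoid.CoprodI.of (M := fun i => A i) a}

theorem closure_facs : Subgroup.closure (facs A) = ⊤ := by
  rw [eq_top_iff]
  intro γ _
  induction γ using Monoid.CoprodI.induction_on with
  | one => exact one_mem _
  | of i a => exact Subgroup.subset_closure (Or.inr ⟨i, a, rfl⟩)
  | mul a b ha hb => exact mul_mem (ha (Subgroup.mem_top _)) (hb (Subgroup.mem_top _))

theorem sec_facs (h : FreeNuc A) : ∀ a ∈ facs A, ∀ b ∈ facs A, ∀ x,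
    (freeRec h (a * b)).s x ∈ facs A := by
  have one : ∀ (i : Fin n) (a : A i) (x : X),
      (freeRec h (Monoid.CoprodI.of (M := fun i => A i) a)).s x ∈ facs A := by
    intro i a x
    obtain ⟨k, -, h2⟩ := h.sec i i a.1 a.2 a.1 a.2 x
    rw [freeRec_of]
    change emb A (sec a.1 x) ∈ facs A
    rw [emb_eq h h2]
    exact Or.inr ⟨k, _, rfl⟩
  rintro a (rfl | ⟨i, a, rfl⟩) b (rfl | ⟨j, b, rfl⟩) x
  · rw [mul_one, map_one]
    exact Or.inl rfl
  · rw [one_mul]
    exact one j b x
  · rw [mul_one]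
    exact one i a x
  · obtain ⟨k, h1, h2⟩ := h.sec i j a.1 a.2 b.1 b.2 x
    rw [map_mul, freeRec_of, freeRec_of]
    change emb A (sec a.1 (root b.1 x)) * emb A (sec b.1 x) ∈ facs A
    rw [emb_eq h h1, emb_eq h h2, ← map_mul]
    exact Or.inr ⟨k, _, rfl⟩

theorem act_iSup (h : FreeNuc A) {g : T X} (hg : g ∈ ⨆ i, A i) :
    ∃ γ : Monoid.CoprodI (fun i => A i), ∀ w, act (freeRec h) γ w = g.1 w := by
  induction hg using Subgroup.iSup_induction' with
  | hp i a ha => exact ⟨Monoid.CoprodI.of (M := fun i => A i) (⟨a, ha⟩ : A i),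
      fun w => act_freeRec h w i ⟨a, ha⟩⟩
  | h1 => exact ⟨1, fun w => act_one _ w⟩
  | hmul a b _ _ iha ihb =>
    obtain ⟨α, hα⟩ := iha
    obtain ⟨β, hβ⟩ := ihb
    refine ⟨α * β, fun w => ?_⟩
    rw [act_mul, hβ, hα]
    rfl

/-- **free products** -/
theorem free_closed [Finite X] (C : ∀ (G : Type) [Group G], Prop) (hC : Closed C)
    (h : FreeNuc A) (hA : ∀ i, C (A i))
    (H : Type) [Group H] (f : H →* Equiv.Perm (List X)) (hf : Function.Injective f)
    (S : Set H) (hS : Subgroup.closure S = ⊤) (hT : ∀ s ∈ S, IsTree (f s))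
    (hNS : ∀ s ∈ S, ∃ n : ℕ, ∀ v : List X, v.length = n →
      ∃ g ∈ ⨆ i, A i, ∀ w, f s (v ++ w) = f s v ++ g.1 w) : C H := by
  have htriv : ∀ δ ∈ facs A, (∀ w, act (freeRec h) δ w = w) → δ = 1 := by
    rintro _ (rfl | ⟨i, a, rfl⟩) h1
    · rfl
    · have h2 : a = 1 := by
        apply Subtype.ext
        apply Subtype.ext
        apply Equiv.ext
        intro w
        rw [← act_freeRec h w i a]
        exact h1 w
      rw [h2, map_one]
  refine stat_closed (freeRec h) C hC (coprodI_closed C hC n (fun i => A i) hA) (facs A) ?_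
    (contract (Or.inl rfl) ?_ closure_facs (sec_facs h)) ?_ H f hf S hS hT ?_
  · refine (Set.finite_singleton (1 : Monoid.CoprodI (fun i => A i))).subset ?_
    rintro δ ⟨h1, h2⟩
    exact htriv δ h1 h2
  · rintro _ (rfl | ⟨i, a, rfl⟩)
    · exact Or.inl inv_one
    · exact Or.inr ⟨i, a⁻¹, (map_inv _ _).symm⟩
  · intro δ h1 _ h2
    exact htriv δ h1 h2
  · intro s hs
    obtain ⟨n, h1⟩ := hNS s hs
    refine ⟨n, fun v hv => ?_⟩
    obtain ⟨g, hg, h2⟩ := h1 v hv
    obtain ⟨γ, h3⟩ := act_iSup h hg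
    exact ⟨γ, fun w => by rw [h2, h3]⟩

end free

end Pool.Agent.N59.CR
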